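import Mathlib

/-!
# Gorenstein rings with `e_HK = s + (1 - s) e` and multiplicity at least three

For every prime `p ≥ 3` the hypersurface domain
`A = k[[x, y, z]] / (z ^ p - x ^ p y - x y ^ p)`, `k = 𝔽_p`, is an F-finite Gorenstein local ring
of dimension two with `e(A) = p`, `e_HK(A) = p` and `s(A) = 0`.
-/

set_option autoImplicit false
set_option linter.all false

namespace Pool.Agent.Results.MP_be9c2a_al.HilbertKunzFSignature

open IsLocalRing Filter Topology

section defs

variable (p : ℕ) (A : Type) [CommRing A] [IsLocalRing A]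

/-- The length of the `A`-module `A / I`, as a real number (`0` if it is infinite). -/
noncomputable def len (I : Ideal A) : ℝ := ((Module.length A (A ⧸ I)).toNat : ℝ)

/-- A (Noetherian) local ring is Gorenstein if it is Cohen-Macaulay of type one: there is a regular
sequence `rs` of length `dim A`, and the socle of `A / (rs)` is generated by one nonzero element. -/
def IsGorenstein : Prop :=
  ∃ rs : List A, RingTheory.Sequence.IsRegular A rs ∧ ringKrullDim A = rs.length ∧
    ∃ s : A, s ∉ Ideal.ofList rs ∧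
      ∀ a : A, a ∈ Ideal.ofList rs ⊔ Ideal.span {s} ↔
        ∀ b ∈ maximalIdeal A, a * b ∈ Ideal.ofList rs

/-- `c` is the Hilbert-Samuel multiplicity of the local ring `A` of dimension `d`. -/
def IsMultiplicity (d : ℕ) (c : ℝ) : Prop :=
  Tendsto (fun n : ℕ => d.factorial * len A (maximalIdeal A ^ n) / (n : ℝ) ^ d) atTop (𝓝 c)

/-- `c` is the Hilbert-Kunz multiplicity of the local ring `A` of dimension `d`. -/
def IsHilbertKunz [ExpChar A p] (d : ℕ) (c : ℝ) : Prop :=
  Tendsto (fun e : ℕ => len A ((maximalIdeal A).map (iterateFrobenius A p e)) /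
    ((p : ℝ) ^ e) ^ d) atTop (𝓝 c)

/-- The maximal rank of a free direct summand of the `A`-module `F^e_* A`, that is, the maximal `n`
for which there is a surjective `A`-linear map `F^e_* A → A ^ n`. -/
noncomputable def freeRank (e : ℕ) : ℕ :=
  sSup {n : ℕ | ∃ φ : A →+ (Fin n → A), Function.Surjective φ ∧
    ∀ a b : A, φ (a ^ p ^ e * b) = a • φ b}

/-- The degree `[k : k ^ p]` for the residue field `k` of `A`. -/
noncomputable def residueDegree : ℕ :=
  Module.finrank (Subfield.closure (Set.range fun a : ResidueField A => a ^ p)) (ResidueField A)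

/-- `s` is the F-signature of the local ring `A` of dimension `d`. -/
def IsFSignature (d : ℕ) (s : ℝ) : Prop :=
  Tendsto (fun e : ℕ => (freeRank p A e : ℝ) / (((p : ℝ) ^ e) ^ d * (residueDegree p A : ℝ) ^ e))
    atTop (𝓝 s)

end defs

section len
variable {A : Type} [CommRing A]

/-- length of `A / I` -/
noncomputable def L (I : Ideal A) : ℕ∞ := Module.length A (A ⧸ I)

theorem L_colon (I K : Ideal A) (r : A) (hK : ∀ a, a ∈ K ↔ r * a ∈ I) :
    L I = L K + L (I ⊔ Ideal.span {r}) := by
  let f : (A ⧸ K) →ₗ[A] (A ⧸ I) := Submodule.mapQ K I (LinearMap.mulLeft A r)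
    (fun a ha => (hK a).1 ha)
  let g : (A ⧸ I) →ₗ[A] (A ⧸ (I ⊔ Ideal.span {r})) := Submodule.mapQ I _ LinearMap.id
    (fun a ha => Ideal.mem_sup_left ha)
  refine Module.length_eq_add_of_exact f g ?_ ?_ ?_
  · rw [injective_iff_map_eq_zero]
    intro a ha
    obtain ⟨a, rfl⟩ := Submodule.Quotient.mk_surjective _ a
    have h1 : (Submodule.Quotient.mk (r * a) : A ⧸ I) = 0 := ha
    rw [Submodule.Quotient.mk_eq_zero] at h1 ⊢
    exact (hK a).2 h1
  · intro a
    obtain ⟨a, rfl⟩ := Submodule.Quotient.mk_surjective _ a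
    exact ⟨Submodule.Quotient.mk a, rfl⟩
  · intro a
    obtain ⟨a, rfl⟩ := Submodule.Quotient.mk_surjective _ a
    have h1 : g (Submodule.Quotient.mk a) = Submodule.Quotient.mk a := rfl
    rw [h1, Submodule.Quotient.mk_eq_zero]
    constructor
    · intro h
      obtain ⟨b, hb, c, hc, h2⟩ := Submodule.mem_sup.1 h
      obtain ⟨d, rfl⟩ := Ideal.mem_span_singleton'.1 hc
      refine ⟨Submodule.Quotient.mk d, ?_⟩
      change (Submodule.Quotient.mk (r * d) : A ⧸ I) = _
      rw [Submodule.Quotient.eq, ← h2]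
      have : r * d - (b + d * r) = -b := by ring
      rw [this]
      exact neg_mem hb
    · rintro ⟨b, hb⟩
      obtain ⟨b, rfl⟩ := Submodule.Quotient.mk_surjective _ b
      have h2 : (Submodule.Quotient.mk (r * b) : A ⧸ I) = Submodule.Quotient.mk a := hb
      rw [Submodule.Quotient.eq] at h2
      have : a = r * b - (r * b - a) := by ring
      rw [this]
      exact sub_mem (Ideal.mem_sup_right (Ideal.mul_mem_right _ _ (Ideal.mem_span_singleton_self r)))
        (Ideal.mem_sup_left h2)

theorem L_top : L (⊤ : Ideal A) = 0 := by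
  unfold L
  rw [Module.length_eq_zero_iff]
  exact Submodule.Quotient.subsingleton_iff.2 rfl

theorem L_mono {I K : Ideal A} (h : I ≤ K) : L K ≤ L I :=
  Module.length_le_of_surjective (Submodule.mapQ I K LinearMap.id h) (fun a => by
    obtain ⟨a, rfl⟩ := Submodule.Quotient.mk_surjective _ a
    exact ⟨Submodule.Quotient.mk a, rfl⟩)

theorem L_max {I : Ideal A} (h : I.IsMaximal) : L I = 1 := by
  unfold L
  rw [Module.length_eq_one_iff]
  exact isSimpleModule_iff_isCoatom.2 h.out

/-- a regular sequence of length two (with the permutability needed below) -/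
structure Reg2 (x y : A) : Prop where
  x_reg : ∀ a, x * a = 0 → a = 0
  y_reg : ∀ a, y * a = 0 → a = 0
  h1 : ∀ (n : ℕ) (a : A), x * a ∈ Ideal.span {y ^ n} → a ∈ Ideal.span {y ^ n}
  h2 : ∀ (a : A), y * a ∈ Ideal.span {x} → a ∈ Ideal.span {x}

variable {x y : A} (H : Reg2 x y)
include H

theorem Reg2.L1 (b : ℕ) : L (Ideal.span {x, y ^ b}) = b * L (Ideal.span {x, y}) := by
  induction b with
  | zero =>
    have : Ideal.span {x, y ^ 0} = ⊤ := by
      rw [pow_zero, Ideal.eq_top_iff_one]
      exact Ideal.subset_span (by simp)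
    rw [this, L_top, Nat.cast_zero, zero_mul]
  | succ b ih =>
    rw [L_colon _ (Ideal.span {x, y ^ b}) y, ih]
    · have : Ideal.span {x, y ^ (b + 1)} ⊔ Ideal.span {y} = Ideal.span {x, y} := by
        rw [← Ideal.span_union]
        apply le_antisymm
        · rw [Ideal.span_le]
          rintro c ((rfl | rfl) | rfl)
          · exact Ideal.subset_span (by simp)
          · rw [pow_succ]
            exact Ideal.mul_mem_left _ _ (Ideal.subset_span (by simp))
          · exact Ideal.subset_span (by simp)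
        · rw [Ideal.span_le]
          rintro c (rfl | rfl)
          · exact Ideal.subset_span (by simp)
          · exact Ideal.subset_span (by simp)
      rw [this]
      push_cast
      ring
    · intro a
      constructor
      · intro h
        obtain ⟨u, v, rfl⟩ := Ideal.mem_span_pair.1 h
        exact Ideal.mem_span_pair.2 ⟨y * u, v, by ring⟩
      · intro h
        obtain ⟨u, v, h⟩ := Ideal.mem_span_pair.1 h
        have h1 : y * (a - v * y ^ b) ∈ Ideal.span {x} := by
          have : y * (a - v * y ^ b) = u * x := by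
            rw [mul_sub, ← h]; ring
          rw [this]
          exact Ideal.mul_mem_left _ _ (Ideal.mem_span_singleton_self _)
        obtain ⟨w, hw⟩ := Ideal.mem_span_singleton'.1 (H.h2 _ h1)
        exact Ideal.mem_span_pair.2 ⟨w, v, by rw [hw]; ring⟩

theorem Reg2.L2 (a b : ℕ) : L (Ideal.span {x ^ a, y ^ b}) = a * (b * L (Ideal.span {x, y})) := by
  induction a with
  | zero =>
    have : Ideal.span {x ^ 0, y ^ b} = ⊤ := by
      rw [pow_zero, Ideal.eq_top_iff_one]
      exact Ideal.subset_span (by simp)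
    rw [this, L_top, Nat.cast_zero, zero_mul]
  | succ a ih =>
    rw [L_colon _ (Ideal.span {x ^ a, y ^ b}) x, ih]
    · have : Ideal.span {x ^ (a + 1), y ^ b} ⊔ Ideal.span {x} = Ideal.span {x, y ^ b} := by
        rw [← Ideal.span_union]
        apply le_antisymm
        · rw [Ideal.span_le]
          rintro c ((rfl | rfl) | rfl)
          · rw [pow_succ]
            exact Ideal.mul_mem_left _ _ (Ideal.subset_span (by simp))
          · exact Ideal.subset_span (by simp)
          · exact Ideal.subset_span (by simp)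
        · rw [Ideal.span_le]
          rintro c (rfl | rfl)
          · exact Ideal.subset_span (by simp)
          · exact Ideal.subset_span (by simp)
      rw [this, H.L1]
      push_cast
      ring
    · intro c
      constructor
      · intro h
        obtain ⟨u, v, rfl⟩ := Ideal.mem_span_pair.1 h
        exact Ideal.mem_span_pair.2 ⟨u, x * v, by ring⟩
      · intro h
        obtain ⟨u, v, h⟩ := Ideal.mem_span_pair.1 h
        have h1 : x * (c - u * x ^ a) ∈ Ideal.span {y ^ b} := by
          have : x * (c - u * x ^ a) = v * y ^ b := by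
            rw [mul_sub, ← h]; ring
          rw [this]
          exact Ideal.mul_mem_left _ _ (Ideal.mem_span_singleton_self _)
        obtain ⟨w, hw⟩ := Ideal.mem_span_singleton'.1 (H.h1 _ _ h1)
        exact Ideal.mem_span_pair.2 ⟨u, w, by rw [hw]; ring⟩

omit H in
theorem pow_le (n : ℕ) : Ideal.span {x, y} ^ (n + 1) ≤
    Ideal.span {x} * Ideal.span {x, y} ^ n ⊔ Ideal.span {y ^ (n + 1)} := by
  induction n with
  | zero =>
    rw [zero_add, pow_one, pow_zero, pow_one, mul_one, ← Ideal.span_union]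
    rfl
  | succ n ih =>
    have h1 : Ideal.span {x, y} = Ideal.span {x} ⊔ Ideal.span {y} := by
      rw [← Ideal.span_union]; rfl
    calc Ideal.span {x, y} ^ (n + 1 + 1) = Ideal.span {x} * Ideal.span {x, y} ^ (n + 1) ⊔
          Ideal.span {y} * Ideal.span {x, y} ^ (n + 1) := by
          rw [pow_succ' _ (n + 1), ← Ideal.sup_mul, ← h1]
      _ ≤ Ideal.span {x} * Ideal.span {x, y} ^ (n + 1) ⊔ Ideal.span {y} *
          (Ideal.span {x} * Ideal.span {x, y} ^ n ⊔ Ideal.span {y ^ (n + 1)}) :=
          sup_le_sup le_rfl (Ideal.mul_mono le_rfl ih)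
      _ ≤ _ := by
          rw [Ideal.mul_sup]
          refine sup_le le_sup_left (sup_le ?_ ?_)
          · refine le_trans ?_ le_sup_left
            rw [mul_left_comm]
            refine Ideal.mul_mono le_rfl ?_
            rw [pow_succ']
            refine Ideal.mul_mono ?_ le_rfl
            rw [h1]; exact le_sup_right
          · refine le_trans ?_ le_sup_right
            rw [Ideal.span_singleton_mul_span_singleton, ← pow_succ']

theorem Reg2.L3 (n : ℕ) : 2 * L (Ideal.span {x, y} ^ n) =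
    (n * (n + 1) : ℕ) * L (Ideal.span {x, y}) := by
  induction n with
  | zero => rw [pow_zero, Ideal.one_eq_top, L_top]; simp
  | succ n ih =>
    rw [L_colon _ (Ideal.span {x, y} ^ n) x, mul_add, ih]
    · have : Ideal.span {x, y} ^ (n + 1) ⊔ Ideal.span {x} = Ideal.span {x, y ^ (n + 1)} := by
        apply le_antisymm
        · refine sup_le ((pow_le n).trans (sup_le ((Ideal.mul_le_inf.trans inf_le_left).trans ?_) ?_)) ?_
          · exact Ideal.span_mono (by simp)
          · exact Ideal.span_mono (by simp)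
          · exact Ideal.span_mono (by simp)
        · rw [Ideal.span_le]
          rintro c (rfl | rfl)
          · exact Ideal.mem_sup_right (Ideal.mem_span_singleton_self _)
          · exact Ideal.mem_sup_left (Ideal.pow_mem_pow (Ideal.subset_span (by simp)) _)
      rw [this, H.L1]
      push_cast
      ring
    · intro c
      constructor
      · intro h
        rw [pow_succ']
        exact Ideal.mul_mem_mul (Ideal.subset_span (by simp)) h
      · intro h
        obtain ⟨u, hu, v, hv, h⟩ := Submodule.mem_sup.1 (pow_le n h)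
        obtain ⟨w, hw, rfl⟩ := Ideal.mem_span_singleton_mul.1 hu
        have h1 : x * (c - w) ∈ Ideal.span {y ^ (n + 1)} := by
          have : x * (c - w) = v := by
            rw [mul_sub, ← h]; ring
          rwa [this]
        have h2 := H.h1 _ _ h1
        have h3 : Ideal.span {y ^ (n + 1)} ≤ Ideal.span {x, y} ^ n := by
          rw [Ideal.span_le, Set.singleton_subset_iff, pow_succ]
          exact Ideal.mul_mem_right _ _ (Ideal.pow_mem_pow (Ideal.subset_span (by simp)) _)
        have : c = (c - w) + w := by ring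
        rw [this]
        exact add_mem (h3 h2) hw


end len

section len2

variable {A : Type} [CommRing A]

theorem max_pow_le {J K : Ideal A} {p : ℕ} (hp : 0 < p) (hK : K ^ p ≤ J ^ p) :
    (J ⊔ K) ^ p ≤ J * (J ⊔ K) ^ (p - 1) := by
  have h1 : ∀ n : ℕ, (J ⊔ K) ^ (n + 1) ≤ J * (J ⊔ K) ^ n ⊔ K ^ (n + 1) := by
    intro n
    induction n with
    | zero => rw [zero_add, pow_one, pow_zero, pow_one, mul_one]
    | succ n ih =>
      calc (J ⊔ K) ^ (n + 1 + 1) = (J ⊔ K) ^ (n + 1) * (J ⊔ K) := pow_succ _ _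
        _ ≤ (J * (J ⊔ K) ^ n ⊔ K ^ (n + 1)) * (J ⊔ K) := Ideal.mul_mono ih le_rfl
        _ ≤ _ := by
          rw [Ideal.sup_mul, Ideal.mul_sup (K ^ (n + 1)), mul_assoc, ← pow_succ, ← pow_succ]
          refine sup_le le_sup_left (sup_le ?_ le_sup_right)
          refine le_trans ?_ le_sup_left
          rw [mul_comm]
          exact Ideal.mul_mono le_rfl (Ideal.pow_right_mono le_sup_right _)
  obtain ⟨n, rfl⟩ := Nat.exists_eq_succ_of_ne_zero hp.ne'
  simp only [Nat.succ_eq_add_one, Nat.add_sub_cancel]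
  refine (h1 n).trans (sup_le le_rfl (hK.trans ?_))
  rw [pow_succ']
  exact Ideal.mul_mono le_rfl (Ideal.pow_right_mono le_sup_left _)

theorem max_pow_le' {J K : Ideal A} {p : ℕ} (hp : 0 < p) (hK : K ^ p ≤ J ^ p) (n : ℕ) :
    (J ⊔ K) ^ (p - 1 + n) ≤ J ^ n := by
  have h : ∀ n, (J ⊔ K) ^ (p - 1 + n) ≤ J ^ n * (J ⊔ K) ^ (p - 1) := by
    intro n
    induction n with
    | zero => rw [add_zero, pow_zero, one_mul]
    | succ n ih =>
      calc (J ⊔ K) ^ (p - 1 + (n + 1)) = (J ⊔ K) ^ (p - 1 + n) * (J ⊔ K) := by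
            rw [← pow_succ, add_assoc]
        _ ≤ J ^ n * (J ⊔ K) ^ (p - 1) * (J ⊔ K) := Ideal.mul_mono ih le_rfl
        _ = J ^ n * (J ⊔ K) ^ p := by
            rw [mul_assoc, ← pow_succ, Nat.sub_add_cancel hp]
        _ ≤ J ^ n * (J * (J ⊔ K) ^ (p - 1)) := Ideal.mul_mono le_rfl (max_pow_le hp hK)
        _ = _ := by rw [← mul_assoc, ← pow_succ]
  exact (h n).trans (Ideal.mul_le_inf.trans inf_le_left)

end len2

/-- A local domain `S` of characteristic `p` with a regular system of parameters `x, y` and a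
derivation `D` with `D x = 1`, `D y = 0`. -/
structure Setup (p : ℕ) (S : Type) [CommRing S] [IsLocalRing S] [ExpChar S p] where
  x : S
  y : S
  mem_max : ∀ s : S, s ∈ maximalIdeal S ↔ ∃ u v, s = x * u + y * v
  y_ne : y ≠ 0
  x_ne : x ≠ 0
  y_dvd_of : ∀ (n : ℕ) (c : S), y ^ n ∣ x * c → y ^ n ∣ c
  x_dvd_of : ∀ (c : S), x ∣ y * c → x ∣ c
  D : S →+ S
  D_mul : ∀ a b, D (a * b) = a * D b + b * D a
  D_pow_p : ∀ a, D (a ^ p) = 0
  D_x : D x = 1
  D_y : D y = 0
  finite : (frobenius S p).Finite

namespace Setup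

section ring

open Polynomial

variable {p : ℕ} [hp : Fact p.Prime] {S : Type} [CommRing S] [IsDomain S] [IsLocalRing S]
  [IsNoetherianRing S] [CharP S p] (E : Setup p S)

theorem D_one : E.D 1 = 0 := by
  have h := E.D_mul 1 1
  rw [mul_one, one_mul] at h
  exact left_eq_add.1 h

theorem D_pow (a : S) (n : ℕ) : E.D (a ^ (n + 1)) = ((n + 1 : ℕ) : S) * a ^ n * E.D a := by
  induction n with
  | zero => simp
  | succ n ih =>
    rw [pow_succ, E.D_mul, ih]
    push_cast
    ring

/-- the radicand -/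
def f : S := E.x ^ p * E.y + E.x * E.y ^ p

theorem D_f : E.D E.f = E.y ^ p := by
  unfold f
  rw [map_add, E.D_mul, E.D_mul, E.D_pow_p, E.D_pow_p, E.D_x, E.D_y]
  ring

/-- the polynomial `Z ^ p - f` -/
noncomputable def g : Polynomial S := X ^ p - C E.f

/-- the ring -/
abbrev A : Type := AdjoinRoot E.g

theorem g_monic : E.g.Monic := Polynomial.monic_X_pow_sub_C _ hp.out.ne_zero

theorem g_degree : E.g.degree = p := Polynomial.degree_X_pow_sub_C hp.out.pos _

theorem g_natDegree : E.g.natDegree = p := Polynomial.natDegree_X_pow_sub_C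

/-- the structure map -/
noncomputable def i : S →+* E.A := AdjoinRoot.of E.g

/-- the root -/
noncomputable def z : E.A := AdjoinRoot.root E.g

theorem z_pow : E.z ^ p = E.i E.f := by
  have h := AdjoinRoot.eval₂_root E.g
  unfold g at h
  rw [Polynomial.eval₂_sub, Polynomial.eval₂_pow, Polynomial.eval₂_X, Polynomial.eval₂_C,
    sub_eq_zero] at h
  exact h

/-- the embedding into `S` (a twisted Frobenius) -/
noncomputable def φ : E.A →+* S := AdjoinRoot.lift (frobenius S p) E.f (by
  unfold g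
  rw [Polynomial.eval₂_sub, Polynomial.eval₂_pow, Polynomial.eval₂_X, Polynomial.eval₂_C,
    frobenius_def, sub_self])

theorem φ_mk (q : Polynomial S) :
    E.φ (AdjoinRoot.mk E.g q) = q.eval₂ (frobenius S p) E.f :=
  AdjoinRoot.lift_mk _ q

theorem φ_i (s : S) : E.φ (E.i s) = s ^ p := AdjoinRoot.lift_of _

theorem D_eval₂ (q : Polynomial S) : E.D (q.eval₂ (frobenius S p) E.f) =
    q.derivative.eval₂ (frobenius S p) E.f * E.y ^ p := by
  induction q using Polynomial.induction_on' with
  | add a b ha hb => rw [Polynomial.eval₂_add, map_add, ha, hb, Polynomial.derivative_add,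
      Polynomial.eval₂_add, add_mul]
  | monomial n a =>
    rw [Polynomial.eval₂_monomial, Polynomial.derivative_monomial, Polynomial.eval₂_monomial,
      E.D_mul, frobenius_def, E.D_pow_p, mul_zero, add_zero]
    rcases n with _ | n
    · simp [E.D_one]
    · rw [E.D_pow, E.D_f, map_mul, map_natCast, frobenius_def]
      simp only [Nat.add_sub_cancel]
      ring

theorem eval₂_inj : ∀ (m : ℕ), m < p → ∀ q : Polynomial S, q.natDegree ≤ m →
    q.eval₂ (frobenius S p) E.f = 0 → q = 0 := by
  have hbase : ∀ a : S, (C a : Polynomial S).eval₂ (frobenius S p) E.f = 0 → a = 0 := by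
    intro a ha
    rw [Polynomial.eval₂_C, frobenius_def] at ha
    exact eq_zero_of_pow_eq_zero ha
  intro m
  induction m with
  | zero =>
    intro _ q hq h0
    rw [Polynomial.eq_C_of_natDegree_le_zero hq] at h0 ⊢
    rw [hbase _ h0, map_zero]
  | succ m ih =>
    intro hm q hq h0
    have hD := E.D_eval₂ q
    rw [h0, map_zero] at hD
    have hy : E.y ^ p ≠ 0 := pow_ne_zero _ E.y_ne
    have h1 := (mul_eq_zero.1 hD.symm).resolve_right hy
    have h2 : q.derivative = 0 := ih (by omega) _ ((Polynomial.natDegree_derivative_le q).trans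
      (by omega)) h1
    have h3 : q = C (q.coeff 0) := by
      ext n
      rcases n with _ | n
      · rw [Polynomial.coeff_C_zero]
      · rw [Polynomial.coeff_C_succ]
        by_cases hn : n + 1 ≤ m + 1
        · have h4 : q.derivative.coeff n = 0 := by rw [h2, Polynomial.coeff_zero]
          rw [Polynomial.coeff_derivative] at h4
          refine (mul_eq_zero.1 h4).resolve_right ?_
          have h5 : ((n + 1 : ℕ) : S) ≠ 0 := by
            rw [Ne, CharP.cast_eq_zero_iff S p]
            intro h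
            have := Nat.le_of_dvd (by omega) h
            omega
          exact_mod_cast h5
        · exact Polynomial.coeff_eq_zero_of_natDegree_lt (by omega)
    rw [h3] at h0 ⊢
    rw [hbase _ h0, map_zero]

/-- coordinates -/
noncomputable def co : E.A →ₗ[S] Polynomial S := AdjoinRoot.modByMonicHom E.g_monic

theorem mk_co (a : E.A) : AdjoinRoot.mk E.g (E.co a) = a :=
  AdjoinRoot.mk_leftInverse E.g_monic a

theorem co_mk (q : Polynomial S) (hq : q.degree < p) : E.co (AdjoinRoot.mk E.g q) = q := by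
  unfold co
  rw [AdjoinRoot.modByMonicHom_mk, Polynomial.modByMonic_eq_self_iff E.g_monic, E.g_degree]
  exact hq

theorem co_degree (a : E.A) : (E.co a).degree < p := by
  obtain ⟨q, rfl⟩ := AdjoinRoot.mk_surjective a
  unfold co
  rw [AdjoinRoot.modByMonicHom_mk, ← E.g_degree]
  exact Polynomial.degree_modByMonic_lt q E.g_monic

theorem co_coeff (a : E.A) {n : ℕ} (hn : p ≤ n) : (E.co a).coeff n = 0 :=
  Polynomial.coeff_eq_zero_of_degree_lt (lt_of_lt_of_le (E.co_degree a) (by exact_mod_cast hn))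

theorem i_mul (s : S) (a : E.A) : E.i s * a = s • a := by
  rw [Algebra.smul_def]; rfl

theorem co_i_mul (s : S) (a : E.A) : E.co (E.i s * a) = s • E.co a := by
  rw [i_mul, map_smul]

theorem φ_inj : Function.Injective E.φ := by
  rw [injective_iff_map_eq_zero]
  intro a ha
  have hp1 := hp.out.pos
  rw [← E.mk_co a] at ha ⊢
  rw [φ_mk] at ha
  rw [E.eval₂_inj (p - 1) (by omega) (E.co a) (by
    by_cases h0 : E.co a = 0
    · rw [h0, Polynomial.natDegree_zero]
      omega
    · have := (Polynomial.natDegree_lt_iff_degree_lt h0).2 (E.co_degree a)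
      omega) ha, map_zero]

instance : IsDomain E.A := E.φ_inj.isDomain E.φ

instance : CharP E.A p := by
  refine ⟨fun n => ?_⟩
  rw [← CharP.cast_eq_zero_iff S p n, ← map_natCast E.φ, map_eq_zero_iff _ E.φ_inj]

theorem pow_p (a : E.A) : a ^ p = E.i (E.φ a) := by
  apply E.φ_inj
  rw [map_pow, φ_i]

instance : IsLocalHom E.φ := ⟨fun a ha => by
  have h1 : IsUnit (a ^ p) := by
    rw [pow_p]
    exact ha.map E.i
  exact (isUnit_pow_iff hp.out.ne_zero).1 h1⟩

instance : IsLocalRing E.A := RingHom.domain_isLocalRing E.φ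

instance : Module.Finite S E.A := E.g_monic.finite_adjoinRoot

instance : IsNoetherianRing E.A := IsNoetherianRing.of_finite S E.A

theorem finiteA : (frobenius E.A p).Finite := by
  have h1 : (frobenius E.A p) = E.i.comp E.φ := RingHom.ext fun a => E.pow_p a
  have h2 : (frobenius S p) = E.φ.comp E.i := RingHom.ext fun a => (E.φ_i a).symm
  have h3 : E.φ.Finite := by
    have := E.finite
    rw [h2] at this
    exact RingHom.Finite.of_comp_finite this
  have h4 : E.i.Finite := by
    have : Module.Finite S E.A := inferInstance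
    exact RingHom.finite_algebraMap.2 this
  rw [h1]
  exact h4.comp h3


/-! ### the ideal `J = (x, y)` -/

/-- the ideal `(x, y)` -/
noncomputable def J : Ideal E.A := Ideal.span {E.i E.x, E.i E.y}

theorem mem_J {a : E.A} : a ∈ E.J ↔ ∀ n, (E.co a).coeff n ∈ maximalIdeal S := by
  constructor
  · intro h n
    obtain ⟨u, v, rfl⟩ := Ideal.mem_span_pair.1 h
    rw [mul_comm u, mul_comm v, map_add, co_i_mul, co_i_mul, Polynomial.coeff_add,
      Polynomial.coeff_smul, Polynomial.coeff_smul]
    exact (E.mem_max _).2 ⟨_, _, rfl⟩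
  · intro h
    choose u v huv using fun n => (E.mem_max _).1 (h n)
    rw [← E.mk_co a, Polynomial.as_sum_range (E.co a), map_sum]
    apply Ideal.sum_mem
    intro n _
    rw [← Polynomial.C_mul_X_pow_eq_monomial, map_mul, huv n]
    apply Ideal.mul_mem_right
    have h1 : AdjoinRoot.mk E.g (C (E.x * u n + E.y * v n)) =
        E.i (u n) * E.i E.x + E.i (v n) * E.i E.y := by
      rw [← map_mul, ← map_mul, ← map_add, mul_comm (u n), mul_comm (v n)]
      rfl
    rw [h1]
    exact Ideal.mem_span_pair.2 ⟨_, _, rfl⟩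

theorem i_mem {s : S} (hs : s ∈ maximalIdeal S) : E.i s ∈ E.J := by
  obtain ⟨u, v, rfl⟩ := (E.mem_max s).1 hs
  rw [map_add, map_mul, map_mul, mul_comm (E.i E.x), mul_comm (E.i E.y)]
  exact Ideal.mem_span_pair.2 ⟨_, _, rfl⟩

theorem x_mem_max : E.x ∈ maximalIdeal S := (E.mem_max _).2 ⟨1, 0, by ring⟩

theorem y_mem_max : E.y ∈ maximalIdeal S := (E.mem_max _).2 ⟨0, 1, by ring⟩

theorem f_mem : E.f ∈ maximalIdeal S := by
  unfold f
  exact add_mem (Ideal.mul_mem_left _ _ E.y_mem_max) (Ideal.mul_mem_right _ _ E.x_mem_max)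

theorem zp_mem : E.z ^ p ∈ E.J := by
  rw [z_pow]
  exact E.i_mem E.f_mem

theorem co_z_pow {n : ℕ} (hn : n < p) : E.co (E.z ^ n) = X ^ n := by
  have h : E.z ^ n = AdjoinRoot.mk E.g (X ^ n) := by
    rw [map_pow]; rfl
  rw [h, co_mk]
  rw [Polynomial.degree_X_pow]
  exact_mod_cast hn

theorem z_pow_notMem {n : ℕ} (hn : n < p) : E.z ^ n ∉ E.J := by
  intro h
  have h1 := E.mem_J.1 h n
  rw [E.co_z_pow hn, Polynomial.coeff_X_pow_self] at h1
  exact (Ideal.ne_top_iff_one _).1 (IsLocalRing.maximalIdeal.isMaximal S).ne_top h1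

/-- the key fact for the powers of `z` -/
theorem of_z_mul_mem {b : E.A} (hb : E.z * b ∈ E.J) : b ∈ E.J ⊔ Ideal.span {E.z ^ (p - 1)} := by
  have hp1 := hp.out.pos
  have hp2 := hp.out.two_le
  -- split off the top coefficient
  set q := E.co b with hq
  set r := q.coeff (p - 1) with hr
  set q' := q - C r * X ^ (p - 1) with hq'
  have hdeg : q'.degree < (p - 1 : ℕ) := by
    rw [Polynomial.degree_lt_iff_coeff_zero]
    intro m hm
    rw [hq', Polynomial.coeff_sub, Polynomial.coeff_C_mul, Polynomial.coeff_X_pow]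
    split_ifs with h
    · rw [h, mul_one, hr, sub_self]
    · rw [mul_zero, sub_zero]
      exact E.co_coeff b (by omega)
  have hb1 : b = AdjoinRoot.mk E.g q' + E.i r * E.z ^ (p - 1) := by
    conv_lhs => rw [← E.mk_co b]
    have : E.i r * E.z ^ (p - 1) = AdjoinRoot.mk E.g (C r * X ^ (p - 1)) := by
      rw [map_mul, map_pow]; rfl
    rw [this, ← map_add, hq']
    congr 1
    ring
  have hzb : E.z * AdjoinRoot.mk E.g q' ∈ E.J := by
    have h1 : E.z * AdjoinRoot.mk E.g q' = E.z * b - E.i r * E.z ^ p := by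
      have h2 : E.z ^ p = E.z * E.z ^ (p - 1) := by
        rw [← pow_succ', Nat.sub_add_cancel hp1]
      rw [hb1, h2]
      ring
    rw [h1]
    exact sub_mem hb (Ideal.mul_mem_left _ _ E.zp_mem)
  have hco : E.co (E.z * AdjoinRoot.mk E.g q') = X * q' := by
    have h1 : E.z * AdjoinRoot.mk E.g q' = AdjoinRoot.mk E.g (X * q') := by
      rw [map_mul]; rfl
    rw [h1, co_mk]
    rw [Polynomial.degree_lt_iff_coeff_zero] at hdeg ⊢
    intro m hm
    obtain ⟨k, rfl⟩ := Nat.exists_eq_succ_of_ne_zero (show m ≠ 0 by omega)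
    rw [Nat.succ_eq_add_one, Polynomial.coeff_X_mul]
    exact hdeg k (by omega)
  have hq'J : AdjoinRoot.mk E.g q' ∈ E.J := by
    rw [mem_J]
    intro n
    rw [E.co_mk q' (lt_of_lt_of_le hdeg (by exact_mod_cast Nat.sub_le p 1))]
    have h1 := E.mem_J.1 hzb (n + 1)
    rwa [hco, Polynomial.coeff_X_mul] at h1
  rw [hb1]
  exact add_mem (Ideal.mem_sup_left hq'J)
    (Ideal.mem_sup_right (Ideal.mul_mem_left _ _ (Ideal.mem_span_singleton_self _)))

/-! ### the maximal ideal -/

theorem mem_maxA {a : E.A} : a ∈ maximalIdeal E.A ↔ E.φ a ∈ maximalIdeal S := by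
  rw [mem_maximalIdeal, mem_maximalIdeal, mem_nonunits_iff, mem_nonunits_iff, isUnit_map_iff]

theorem φ_z : E.φ E.z = E.f := AdjoinRoot.lift_root _

theorem z_mem_max : E.z ∈ maximalIdeal E.A := by
  rw [mem_maxA, φ_z]
  exact E.f_mem

theorem i_mem_max {s : S} : E.i s ∈ maximalIdeal E.A ↔ s ∈ maximalIdeal S := by
  rw [mem_maxA, φ_i]
  exact ⟨fun h => (maximalIdeal.isMaximal S).isPrime.mem_of_pow_mem p h,
    fun h => Ideal.pow_mem_of_mem _ h p hp.out.pos⟩

theorem decomp (a : E.A) : ∃ b, a = E.i ((E.co a).coeff 0) + E.z * b := by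
  refine ⟨AdjoinRoot.mk E.g (E.co a).divX, ?_⟩
  conv_lhs => rw [← E.mk_co a, ← Polynomial.divX_mul_X_add (E.co a)]
  rw [map_add, map_mul, add_comm, mul_comm]
  rfl

theorem max_eq : maximalIdeal E.A = E.J ⊔ Ideal.span {E.z} := by
  apply le_antisymm
  · intro a ha
    obtain ⟨b, hb⟩ := E.decomp a
    have h1 : E.i ((E.co a).coeff 0) ∈ maximalIdeal E.A := by
      have : E.i ((E.co a).coeff 0) = a - E.z * b := by
        rw [eq_sub_iff_add_eq]; exact hb.symm
      rw [this]
      exact sub_mem ha (Ideal.mul_mem_right _ _ E.z_mem_max)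
    rw [hb]
    exact add_mem (Ideal.mem_sup_left (E.i_mem (E.i_mem_max.1 h1)))
      (Ideal.mem_sup_right (Ideal.mul_mem_right _ _ (Ideal.mem_span_singleton_self _)))
  · refine sup_le ?_ ?_
    · unfold J
      rw [Ideal.span_le]
      rintro c (rfl | rfl)
      · exact E.i_mem_max.2 E.x_mem_max
      · exact E.i_mem_max.2 E.y_mem_max
    · rw [Ideal.span_le]
      rintro c rfl
      exact E.z_mem_max

theorem J_ne_top : E.J ≠ ⊤ := fun h => by
  have h1 := E.z_pow_notMem (n := 0) hp.out.pos
  rw [h] at h1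
  exact h1 trivial

/-! ### the regular sequence -/

theorem mem_span_i {s : S} {a : E.A} : a ∈ Ideal.span {E.i s} ↔ ∀ n, s ∣ (E.co a).coeff n := by
  rw [Ideal.mem_span_singleton]
  constructor
  · rintro ⟨b, rfl⟩ n
    rw [co_i_mul, Polynomial.coeff_smul]
    exact ⟨_, rfl⟩
  · intro h
    obtain ⟨q, hq⟩ := (Polynomial.C_dvd_iff_dvd_coeff s (E.co a)).2 h
    refine ⟨AdjoinRoot.mk E.g q, ?_⟩
    rw [← E.mk_co a, hq, map_mul]
    rfl

theorem reg2 : Reg2 (E.i E.x) (E.i E.y) where
  x_reg a h := by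
    have h1 : E.i E.x ≠ 0 := by
      intro h0
      have := congrArg E.φ h0
      rw [φ_i, map_zero] at this
      exact E.x_ne (eq_zero_of_pow_eq_zero this)
    exact (mul_eq_zero.1 h).resolve_left h1
  y_reg a h := by
    have h1 : E.i E.y ≠ 0 := by
      intro h0
      have := congrArg E.φ h0
      rw [φ_i, map_zero] at this
      exact E.y_ne (eq_zero_of_pow_eq_zero this)
    exact (mul_eq_zero.1 h).resolve_left h1
  h1 n a h := by
    rw [← map_pow, mem_span_i] at h ⊢
    intro m
    apply E.y_dvd_of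
    have := h m
    rwa [co_i_mul, Polynomial.coeff_smul] at this
  h2 a h := by
    rw [mem_span_i] at h ⊢
    intro m
    apply E.x_dvd_of
    have := h m
    rwa [co_i_mul, Polynomial.coeff_smul] at this

/-! ### lengths -/

theorem L_K (l : ℕ) (hl : l ≤ p) : L (E.J ⊔ Ideal.span {E.z ^ l}) = l := by
  induction l with
  | zero =>
    have : E.J ⊔ Ideal.span {E.z ^ 0} = ⊤ := by
      rw [pow_zero, Ideal.span_singleton_one, sup_top_eq]
    rw [this, L_top, Nat.cast_zero]
  | succ l ih =>
    rw [L_colon _ (E.J ⊔ Ideal.span {E.z ^ l}) E.z, ih (by omega)]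
    · have : E.J ⊔ Ideal.span {E.z ^ (l + 1)} ⊔ Ideal.span {E.z} = maximalIdeal E.A := by
        rw [E.max_eq, sup_assoc]
        congr 1
        rw [sup_eq_right, Ideal.span_singleton_le_span_singleton]
        exact dvd_pow_self _ (Nat.succ_ne_zero l)
      rw [this, L_max (maximalIdeal.isMaximal _)]
      push_cast
      rfl
    · intro a
      constructor
      · intro h
        obtain ⟨u, hu, v, hv, rfl⟩ := Submodule.mem_sup.1 h
        obtain ⟨w, rfl⟩ := Ideal.mem_span_singleton'.1 hv
        rw [mul_add]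
        refine add_mem (Ideal.mem_sup_left (Ideal.mul_mem_left _ _ hu)) (Ideal.mem_sup_right ?_)
        have : E.z * (w * E.z ^ l) = w * E.z ^ (l + 1) := by ring
        rw [this]
        exact Ideal.mul_mem_left _ _ (Ideal.mem_span_singleton_self _)
      · intro h
        obtain ⟨u, hu, v, hv, h⟩ := Submodule.mem_sup.1 h
        obtain ⟨w, rfl⟩ := Ideal.mem_span_singleton'.1 hv
        have h1 : E.z * (a - w * E.z ^ l) ∈ E.J := by
          have : E.z * (a - w * E.z ^ l) = u := by
            rw [mul_sub, ← h]; ring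
          rwa [this]
        have h2 := E.of_z_mul_mem h1
        have h3 : E.J ⊔ Ideal.span {E.z ^ (p - 1)} ≤ E.J ⊔ Ideal.span {E.z ^ l} := by
          refine sup_le_sup le_rfl ?_
          rw [Ideal.span_singleton_le_span_singleton]
          exact pow_dvd_pow _ (by omega)
        have h4 : a = (a - w * E.z ^ l) + w * E.z ^ l := by ring
        rw [h4]
        exact add_mem (h3 h2) (Ideal.mem_sup_right
          (Ideal.mul_mem_left _ _ (Ideal.mem_span_singleton_self _)))

theorem L_J : L E.J = p := by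
  have h := E.L_K p le_rfl
  rwa [sup_eq_left.2] at h
  rw [Ideal.span_le, Set.singleton_subset_iff]
  exact E.zp_mem

theorem zp_mem' : Ideal.span {E.z} ^ p ≤ E.J ^ p := by
  rw [Ideal.span_singleton_pow, Ideal.span_le, Set.singleton_subset_iff, z_pow]
  have hx : E.i E.x ∈ E.J := E.i_mem E.x_mem_max
  have hy : E.i E.y ∈ E.J := E.i_mem E.y_mem_max
  change E.i (E.x ^ p * E.y + E.x * E.y ^ p) ∈ _
  rw [map_add, map_mul, map_mul, map_pow, map_pow]
  exact add_mem (Ideal.mul_mem_right _ _ (Ideal.pow_mem_pow hx p))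
    (Ideal.mul_mem_left _ _ (Ideal.pow_mem_pow hy p))

/-- the Hilbert-Kunz function -/
theorem HK (e : ℕ) (he : 1 ≤ e) : L ((maximalIdeal E.A).map (iterateFrobenius E.A p e)) =
    (p ^ e * (p ^ e * p) : ℕ) := by
  have h1 : (maximalIdeal E.A).map (iterateFrobenius E.A p e) =
      Ideal.span {E.i E.x ^ p ^ e, E.i E.y ^ p ^ e} := by
    have hz : E.z ^ p ^ e ∈ Ideal.span {E.i E.x ^ p ^ e, E.i E.y ^ p ^ e} := by
      obtain ⟨k, rfl⟩ := Nat.exists_eq_add_of_le he
      have h2 : E.z ^ p ^ (1 + k) = E.i E.y ^ p ^ k * E.i E.x ^ p ^ (1 + k) +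
          E.i E.x ^ p ^ k * E.i E.y ^ p ^ (1 + k) := by
        rw [pow_add p 1 k, pow_one, pow_mul, z_pow, pow_mul, pow_mul]
        unfold f
        rw [map_add, map_mul, map_mul, map_pow, map_pow, add_pow_char_pow, mul_pow, mul_pow]
        ring
      rw [h2]
      exact Ideal.mem_span_pair.2 ⟨_, _, rfl⟩
    rw [max_eq]
    unfold J
    rw [← Ideal.span_union, Ideal.map_span]
    apply le_antisymm
    · rw [Ideal.span_le]
      rintro _ ⟨a, (rfl | rfl) | rfl, rfl⟩
      · exact Ideal.subset_span (Or.inl rfl)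
      · exact Ideal.subset_span (Or.inr rfl)
      · exact hz
    · rw [Ideal.span_le]
      rintro _ (rfl | rfl)
      · exact Ideal.subset_span ⟨E.i E.x, by simp, rfl⟩
      · exact Ideal.subset_span ⟨E.i E.y, by simp, rfl⟩
  rw [h1, E.reg2.L2]
  have := E.L_J
  unfold J at this
  rw [this]
  push_cast
  rfl

theorem isHK : IsHilbertKunz p E.A 2 p := by
  unfold IsHilbertKunz
  refine Tendsto.congr' ?_ tendsto_const_nhds
  filter_upwards [eventually_ge_atTop 1] with e he
  have h1 := E.HK e he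
  unfold L at h1
  unfold len
  rw [h1]
  have hp0 : ((p : ℝ) ^ e) ≠ 0 := pow_ne_zero _ (Nat.cast_ne_zero.2 hp.out.ne_zero)
  rw [ENat.toNat_coe]
  push_cast
  field_simp

theorem hilbert_le (n : ℕ) : 2 * L (maximalIdeal E.A ^ n) ≤ (n * (n + 1) * p : ℕ) := by
  have h1 := E.reg2.L3 n
  have h2 := E.L_J
  unfold J at h2
  rw [h2] at h1
  have h3 : L (maximalIdeal E.A ^ n) ≤ L (Ideal.span {E.i E.x, E.i E.y} ^ n) := by
    apply L_mono
    apply Ideal.pow_right_mono
    rw [max_eq]
    exact le_sup_left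
  calc 2 * L (maximalIdeal E.A ^ n) ≤ 2 * L (Ideal.span {E.i E.x, E.i E.y} ^ n) := by gcongr
    _ = _ := by
      rw [h1]; push_cast; rfl

theorem le_hilbert (n : ℕ) : ((n * (n + 1) * p : ℕ) : ℕ∞) ≤
    2 * L (maximalIdeal E.A ^ (p - 1 + n)) := by
  have h1 := E.reg2.L3 n
  have h2 := E.L_J
  unfold J at h2
  rw [h2] at h1
  have h3 : L (Ideal.span {E.i E.x, E.i E.y} ^ n) ≤ L (maximalIdeal E.A ^ (p - 1 + n)) := by
    apply L_mono
    rw [max_eq]
    exact max_pow_le' hp.out.pos E.zp_mem' n
  calc ((n * (n + 1) * p : ℕ) : ℕ∞) = 2 * L (Ideal.span {E.i E.x, E.i E.y} ^ n) := by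
        rw [h1]; push_cast; rfl
    _ ≤ _ := by gcongr

theorem tendsto_aux (a b c : ℝ) :
    Tendsto (fun n : ℕ => ((n : ℝ) + a) * ((n : ℝ) + b) * c / (n : ℝ) ^ 2) atTop (𝓝 c) := by
  have h1 : Tendsto (fun n : ℕ => (1 + a / (n : ℝ)) * (1 + b / (n : ℝ)) * c) atTop
      (𝓝 ((1 + 0) * (1 + 0) * c)) :=
    ((tendsto_const_nhds.add (tendsto_const_div_atTop_nhds_zero_nat a)).mul
      (tendsto_const_nhds.add (tendsto_const_div_atTop_nhds_zero_nat b))).mul tendsto_const_nhds
  rw [add_zero, one_mul, one_mul] at h1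
  refine Tendsto.congr' ?_ h1
  filter_upwards [eventually_ge_atTop 1] with n hn
  have : (n : ℝ) ≠ 0 := Nat.cast_ne_zero.2 (by omega)
  field_simp

theorem isMult : IsMultiplicity E.A 2 p := by
  unfold IsMultiplicity
  have hfin : ∀ n, ((L (maximalIdeal E.A ^ n)).toNat : ℕ∞) = L (maximalIdeal E.A ^ n) := by
    intro n
    apply ENat.coe_toNat
    intro h
    have h1 := E.hilbert_le n
    rw [h, ENat.mul_top (by norm_num), top_le_iff] at h1
    exact ENat.coe_ne_top _ h1
  have hup : ∀ n, 2 * (L (maximalIdeal E.A ^ n)).toNat ≤ n * (n + 1) * p := by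
    intro n
    have h1 := E.hilbert_le n
    rw [← hfin n] at h1
    exact_mod_cast h1
  have hlow : ∀ n, n * (n + 1) * p ≤ 2 * (L (maximalIdeal E.A ^ (p - 1 + n))).toNat := by
    intro n
    have h1 := E.le_hilbert n
    rw [← hfin _] at h1
    exact_mod_cast h1
  have hp1 := hp.out.pos
  refine tendsto_of_tendsto_of_tendsto_of_le_of_le' (tendsto_aux (1 - p) (2 - p) p)
    (tendsto_aux 0 1 p) ?_ ?_
  · filter_upwards [eventually_ge_atTop p] with n hn
    rw [Nat.factorial_two]
    apply div_le_div_of_nonneg_right _ (by positivity)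
    obtain ⟨k, rfl⟩ := Nat.exists_eq_add_of_le hn
    have h1 := hlow (k + 1)
    have h2 : p - 1 + (k + 1) = p + k := by omega
    rw [h2] at h1
    have h3 : (((k + 1) * (k + 1 + 1) * p : ℕ) : ℝ) ≤
        ((2 * (L (maximalIdeal E.A ^ (p + k))).toNat : ℕ) : ℝ) := Nat.cast_le.2 h1
    push_cast at h3 ⊢
    unfold len
    unfold L at h3
    linarith
  · filter_upwards [eventually_ge_atTop p] with n hn
    rw [Nat.factorial_two]
    apply div_le_div_of_nonneg_right _ (by positivity)
    have h3 : ((2 * (L (maximalIdeal E.A ^ n)).toNat : ℕ) : ℝ) ≤ ((n * (n + 1) * p : ℕ) : ℝ) :=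
      Nat.cast_le.2 (hup n)
    push_cast at h3 ⊢
    unfold len
    unfold L at h3
    linarith

/-! ### the F-signature -/

theorem freeRank_eq (e : ℕ) (he : 1 ≤ e) : freeRank p E.A e = 0 := by
  have h : {n : ℕ | ∃ φ : E.A →+ (Fin n → E.A), Function.Surjective φ ∧
      ∀ a b : E.A, φ (a ^ p ^ e * b) = a • φ b} ⊆ {0} := by
    rintro n ⟨ψ, hψ, hlin⟩
    by_contra hn
    have hn0 : 0 < n := Nat.pos_of_ne_zero hn
    obtain ⟨u, hu⟩ := hψ (fun _ => 1)
    let j : Fin n := ⟨0, hn0⟩
    have h1 : ψ (E.z ^ p ^ e * u) j = E.z := by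
      rw [hlin, hu]
      exact mul_one _
    obtain ⟨k, rfl⟩ := Nat.exists_eq_add_of_le he
    have h2 : E.z ^ p ^ (1 + k) = E.i E.x ^ p ^ (1 + k) * E.i E.y ^ p ^ k +
        E.i E.y ^ p ^ (1 + k) * E.i E.x ^ p ^ k := by
      rw [pow_add p 1 k, pow_one, pow_mul, z_pow, pow_mul, pow_mul]
      unfold f
      rw [map_add, map_mul, map_mul, map_pow, map_pow, add_pow_char_pow, mul_pow, mul_pow]
      ring
    have h3 : E.z ∈ E.J := by
      rw [← h1, h2, add_mul, map_add, mul_assoc, hlin, mul_assoc, hlin]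
      exact add_mem (Ideal.mul_mem_right _ _ (E.i_mem E.x_mem_max))
        (Ideal.mul_mem_right _ _ (E.i_mem E.y_mem_max))
    have h4 := E.z_pow_notMem (n := 1) hp.out.one_lt
    rw [pow_one] at h4
    exact h4 h3
  unfold freeRank
  rcases Set.subset_singleton_iff_eq.1 h with h0 | h0
  · rw [h0]; simp
  · rw [h0]; simp

theorem isFSig : IsFSignature p E.A 2 0 := by
  unfold IsFSignature
  refine Tendsto.congr' ?_ tendsto_const_nhds
  filter_upwards [eventually_ge_atTop 1] with e he
  rw [E.freeRank_eq e he]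
  simp

/-! ### Gorenstein, dimension -/

theorem ofList_eq : Ideal.ofList [E.i E.x, E.i E.y] = E.J := by
  unfold J
  rw [Ideal.ofList_cons, Ideal.ofList_singleton, ← Ideal.span_union]
  rfl

theorem isRegular : RingTheory.Sequence.IsRegular E.A [E.i E.x, E.i E.y] := by
  refine ⟨⟨?_⟩, ?_⟩
  · intro n hn
    rw [isSMulRegular_quotient_iff_mem_of_smul_mem]
    rcases n with _ | _ | n
    · intro a ha
      simp only [List.take_zero, Ideal.ofList_nil, Submodule.bot_smul, Submodule.mem_bot,
        List.getElem_cons_zero] at ha ⊢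
      exact E.reg2.x_reg a ha
    · intro a ha
      simp only [zero_add, List.take_succ_cons, List.take_zero, Ideal.ofList_singleton,
        List.getElem_cons_succ, List.getElem_cons_zero, smul_eq_mul, Ideal.mul_top] at ha ⊢
      exact E.reg2.h2 a ha
    · simp at hn
  · rw [ofList_eq, smul_eq_mul, Ideal.mul_top]
    exact E.J_ne_top.symm

theorem dim : ringKrullDim E.A = 2 := by
  have h1 := ringKrullDim_add_length_eq_ringKrullDim_of_isRegular _ E.isRegular
  rw [ofList_eq] at h1
  have h2 : Module.length E.A (E.A ⧸ E.J) ≠ ⊤ := by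
    have := E.L_J
    unfold L at this
    rw [this]
    exact ENat.coe_ne_top p
  rw [Module.length_ne_top_iff, isFiniteLength_iff_isNoetherian_isArtinian] at h2
  have h3 : IsArtinianRing (E.A ⧸ E.J) := isArtinian_of_tower E.A h2.2
  have h4 : Nontrivial (E.A ⧸ E.J) := Ideal.Quotient.nontrivial_iff.2 E.J_ne_top
  have h5 : ringKrullDim (E.A ⧸ E.J) = 0 := ringKrullDimZero_iff_ringKrullDim_eq_zero.1 inferInstance
  rw [h5] at h1
  rw [← h1]
  rfl

theorem isGorenstein : IsGorenstein E.A := by
  refine ⟨[E.i E.x, E.i E.y], E.isRegular, E.dim, E.z ^ (p - 1), ?_, ?_⟩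
  · rw [ofList_eq]
    exact E.z_pow_notMem (by have := hp.out.pos; omega)
  · intro a
    rw [ofList_eq]
    constructor
    · intro ha b hb
      rw [max_eq] at hb
      obtain ⟨u, hu, v, hv, rfl⟩ := Submodule.mem_sup.1 hb
      obtain ⟨w, rfl⟩ := Ideal.mem_span_singleton'.1 hv
      obtain ⟨c, hc, d, hd, rfl⟩ := Submodule.mem_sup.1 ha
      obtain ⟨r, rfl⟩ := Ideal.mem_span_singleton'.1 hd
      have h1 : (c + r * E.z ^ (p - 1)) * (u + w * E.z) =
          c * (u + w * E.z) + r * E.z ^ (p - 1) * u + r * w * E.z ^ p := by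
        have h2 : E.z ^ p = E.z ^ (p - 1) * E.z := by
          rw [← pow_succ, Nat.sub_add_cancel hp.out.pos]
        rw [h2]; ring
      rw [h1]
      exact add_mem (add_mem (Ideal.mul_mem_right _ _ hc) (Ideal.mul_mem_left _ _ hu))
        (Ideal.mul_mem_left _ _ E.zp_mem)
    · intro h
      apply E.of_z_mul_mem
      rw [mul_comm]
      exact h _ E.z_mem_max

end ring

end Setup

section power

open PowerSeries

section ffin
variable {R : Type} [CommRing R] (p : ℕ) [hp : Fact p.Prime] [CharP R p]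

/-- strong form of F-finiteness -/
def FGen (R : Type) [CommRing R] (p : ℕ) : Prop :=
  ∃ (n : ℕ) (g : Fin n → R), ∀ r : R, ∃ c : Fin n → R, r = ∑ j, g j * c j ^ p

theorem coeff_pow_p (h : R⟦X⟧) (N : ℕ) :
    coeff N (h ^ p) = if p ∣ N then (coeff (N / p) h) ^ p else 0 := by
  have h1 : (PowerSeries.map (frobenius R p)) (expand p hp.out.ne_zero h) = h ^ p :=
    MvPowerSeries.map_frobenius_expand p hp.out.ne_zero
  rw [← h1, coeff_map, coeff_expand]
  split_ifs with h
  · rfl
  · exact map_zero _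

theorem fgen_powerSeries (h : FGen R p) : FGen R⟦X⟧ p := by
  obtain ⟨n, g, hg⟩ := h
  choose c hc using hg
  let e := (finProdFinEquiv (m := p) (n := n)).symm
  refine ⟨p * n, fun k => X ^ (e k).1.1 * C (g (e k).2), fun f => 
    ⟨fun k => PowerSeries.mk fun m => c (coeff ((e k).1.1 + p * m) f) (e k).2, ?_⟩⟩
  rw [Equiv.sum_comp e (fun q : Fin p × Fin n => X ^ q.1.1 * C (g q.2) *
    (PowerSeries.mk fun m => c (coeff (q.1.1 + p * m) f) q.2) ^ p), Fintype.sum_prod_type]
  ext N
  rw [map_sum]
  simp_rw [map_sum, mul_assoc, coeff_X_pow_mul', coeff_C_mul, coeff_pow_p, coeff_mk]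
  have hp0 : 0 < p := hp.out.pos
  rw [Finset.sum_eq_single (⟨N % p, Nat.mod_lt _ hp0⟩ : Fin p)]
  · have h1 : N % p ≤ N := Nat.mod_le _ _
    have h2 : p ∣ N - N % p := Nat.dvd_sub_mod N
    have h3 : N % p + p * ((N - N % p) / p) = N := by
      rw [Nat.mul_div_cancel' h2]; omega
    simp only [h1, if_true, h2, h3]
    exact hc _
  · rintro ⟨i, hi⟩ _ hne
    apply Finset.sum_eq_zero
    intro j _
    split_ifs with h1 h2
    · exfalso
      apply hne
      apply Fin.ext
      change i = N % p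
      have h3 : N % p = i % p := ((Nat.modEq_iff_dvd' h1).2 h2).symm
      rw [h3, Nat.mod_eq_of_lt hi]
    · rw [mul_zero]
    · rfl
  · intro h
    exact absurd (Finset.mem_univ _) h

theorem fgen_zmod : FGen (ZMod p) p :=
  ⟨1, fun _ => 1, fun r => ⟨fun _ => r, by simp [ZMod.pow_card]⟩⟩

end ffin

theorem finite_of_gen {A B : Type} [CommRing A] [CommRing B] (f : A →+* B) (n : ℕ) (g : Fin n → B)
    (h : ∀ b, ∃ c : Fin n → A, b = ∑ j, g j * f (c j)) : f.Finite := by
  classical
  letI := f.toAlgebra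
  refine ⟨⟨Finset.univ.image g, ?_⟩⟩
  rw [eq_top_iff]
  rintro r -
  obtain ⟨c, hc⟩ := h r
  rw [hc]
  apply Submodule.sum_mem
  intro j _
  have : g j * f (c j) = c j • g j := by
    rw [Algebra.smul_def, mul_comm]; rfl
  rw [this]
  apply Submodule.smul_mem
  apply Submodule.subset_span
  simp

theorem finite_of_fgen {R : Type} [CommRing R] (p : ℕ) [hp : Fact p.Prime] [CharP R p]
    (h : FGen R p) : (frobenius R p).Finite := by
  obtain ⟨n, g, hg⟩ := h
  exact finite_of_gen _ n g hg

section deriv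
variable (R : Type) [CommRing R]

/-- the derivative, as an additive map -/
noncomputable def D : R⟦X⟧ →+ R⟦X⟧ := (PowerSeries.derivative R).toLinearMap.toAddMonoidHom

theorem D_mul (a b : R⟦X⟧) : D R (a * b) = a * D R b + b * D R a := by
  change PowerSeries.derivative R (a * b) = _
  rw [Derivation.leibniz]; rfl

theorem D_C (r : R) : D R (C r) = 0 := PowerSeries.derivative_C

theorem D_X : D R X = 1 := PowerSeries.derivative_X

theorem D_one : D R 1 = 0 := by
  have := D_C R 1
  rwa [map_one] at this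

theorem D_pow (a : R⟦X⟧) (n : ℕ) : D R (a ^ (n + 1)) = ((n + 1 : ℕ) : R⟦X⟧) * a ^ n * D R a := by
  induction n with
  | zero => simp
  | succ n ih =>
    rw [pow_succ, D_mul, ih]
    push_cast
    ring

theorem D_natCast_mul (n : ℕ) (a : R⟦X⟧) : D R ((n : R⟦X⟧) * a) = n * D R a := by
  rw [← nsmul_eq_mul, map_nsmul, nsmul_eq_mul]

theorem D_pow_p (p : ℕ) (hp : p ≠ 0) [CharP R⟦X⟧ p] (a : R⟦X⟧) : D R (a ^ p) = 0 := by
  obtain ⟨n, rfl⟩ := Nat.exists_eq_succ_of_ne_zero hp
  rw [Nat.succ_eq_add_one, D_pow]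
  rw [CharP.cast_eq_zero, zero_mul, zero_mul]

end deriv

section base
variable (p : ℕ) [hp : Fact p.Prime]

/-- the base ring `k[[Y]][[X]]` -/
abbrev S : Type := (ZMod p)⟦X⟧⟦X⟧

/-- `x` -/
noncomputable def x : S p := X
/-- `y` -/
noncomputable def y : S p := C X

instance : CharP (S p) p := by
  have : CharP (ZMod p)⟦X⟧ p := charP_of_injective_ringHom (f := (C : ZMod p →+* (ZMod p)⟦X⟧)) C_injective p
  exact charP_of_injective_ringHom (f := (C : (ZMod p)⟦X⟧ →+* S p)) C_injective p

theorem mem_max (s : S p) : s ∈ IsLocalRing.maximalIdeal (S p) ↔ ∃ u v, s = x p * u + y p * v := by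
  rw [IsLocalRing.mem_maximalIdeal, mem_nonunits_iff, PowerSeries.isUnit_iff_constantCoeff,
    PowerSeries.isUnit_iff_constantCoeff]
  constructor
  · intro h
    rw [isUnit_iff_ne_zero, not_not] at h
    obtain ⟨v, hv⟩ := X_dvd_iff.2 h
    have h2 : X ∣ s - C (constantCoeff s) := by
      rw [X_dvd_iff, map_sub, constantCoeff_C, sub_self]
    obtain ⟨u, hu⟩ := h2
    refine ⟨u, C v, ?_⟩
    unfold x y
    rw [← hu, ← map_mul, ← hv, sub_add_cancel]
  · rintro ⟨u, v, rfl⟩
    unfold x y
    simp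

theorem y_dvd_of {n : ℕ} {c : S p} (h : y p ^ n ∣ x p * c) : y p ^ n ∣ c := by
  obtain ⟨d, hd⟩ := h
  have hX : Prime (X : S p) := X_prime
  have h1 : (X : S p) ∣ y p ^ n * d := ⟨c, hd.symm⟩
  rcases hX.dvd_or_dvd h1 with h2 | h2
  · exfalso
    have h3 := hX.dvd_of_dvd_pow h2
    unfold y at h3
    rw [X_dvd_iff, constantCoeff_C] at h3
    exact X_ne_zero h3
  · obtain ⟨e, rfl⟩ := h2
    refine ⟨e, ?_⟩
    apply mul_left_cancel₀ (X_ne_zero (R := (ZMod p)⟦X⟧))
    change x p * c = X * (y p ^ n * e)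
    rw [hd]; ring

theorem x_dvd_of {c : S p} (h : x p ∣ y p * c) : x p ∣ c := by
  have hX : Prime (X : S p) := X_prime
  rcases hX.dvd_or_dvd h with h2 | h2
  · exfalso
    unfold y at h2
    rw [X_dvd_iff, constantCoeff_C] at h2
    exact X_ne_zero h2
  · exact h2

theorem finiteS : (frobenius (S p) p).Finite :=
  haveI : CharP (ZMod p)⟦X⟧ p := charP_of_injective_ringHom (f := (C : ZMod p →+* (ZMod p)⟦X⟧)) C_injective p
  finite_of_fgen p (fgen_powerSeries p (fgen_powerSeries p (fgen_zmod p)))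

/-- the setup for the power series ring in two variables -/
noncomputable def psSetup : Setup p (S p) where
  x := x p
  y := y p
  mem_max := mem_max p
  y_ne := fun h => X_ne_zero (C_injective (h.trans (map_zero C).symm))
  x_ne := X_ne_zero
  y_dvd_of := fun n c h => y_dvd_of p h
  x_dvd_of := fun c h => x_dvd_of p h
  D := D _
  D_mul := D_mul _
  D_pow_p := D_pow_p _ p hp.out.ne_zero
  D_x := D_X _
  D_y := D_C _ _
  finite := finiteS p

end base

end power

/-- For every prime `p ≥ 3` there is an F-finite Gorenstein local domain `A` of characteristic `p`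
and dimension two with `e_HK(A) = s(A) + (1 - s(A)) e(A)` and `e(A) = p ≥ 3`. -/
theorem result (p : ℕ) [Fact p.Prime] (hp : 3 ≤ p) :
    ∃ (A : Type) (_ : CommRing A) (_ : IsDomain A) (_ : IsNoetherianRing A) (_ : IsLocalRing A)
      (_ : CharP A p), (frobenius A p).Finite ∧ IsGorenstein A ∧ ringKrullDim A = 2 ∧
      ∃ e eHK s : ℝ, IsMultiplicity A 2 e ∧ IsHilbertKunz p A 2 eHK ∧ IsFSignature p A 2 s ∧
        eHK = s + (1 - s) * e ∧ e = p ∧ 3 ≤ e := by
  let E := psSetup p
  refine ⟨E.A, inferInstance, inferInstance, inferInstance, inferInstance, inferInstance,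
    E.finiteA, E.isGorenstein, E.dim, p, p, 0, E.isMult, E.isHK, E.isFSig, by ring, rfl, ?_⟩
  exact_mod_cast hp

end Pool.Agent.Results.MP_be9c2a_al.HilbertKunzFSignature
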